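import Pool.Agent.R537.LR.Stm

/-!
# MP_d82c50_lc, piece CAU: Cauchy matrices of size 4 are nonsingular
-/

set_option autoImplicit false

namespace Pool.Agent.NPC.R537LR

open Polynomial in
theorem cau_aux (a b c : Fin 4 → ℝ) (ha : Function.Injective a) (hb : Function.Injective b)
    (hpos : ∀ i j, a i + b j ≠ 0) (h : ∀ i, ∑ j, 1 / (a i + b j) * c j = 0) : c = 0 := by
  set p : ℝ[X] := ∑ j, C (c j) * ∏ k ∈ Finset.univ.erase j, (X + C (b k)) with hp
  have hev : ∀ t : ℝ, p.eval t = ∑ j, c j * ∏ k ∈ Finset.univ.erase j, (t + b k) := by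
    intro t
    rw [hp, eval_finsetSum]
    refine Finset.sum_congr rfl fun j _ => ?_
    rw [eval_mul, eval_C, eval_prod]
    simp
  have hroot : ∀ i, p.eval (a i) = 0 := by
    intro i
    rw [hev]
    have h1 : ∀ j, c j * ∏ k ∈ Finset.univ.erase j, (a i + b k) =
        (∏ k, (a i + b k)) * (1 / (a i + b j) * c j) := by
      intro j
      rw [← Finset.mul_prod_erase Finset.univ (fun k => a i + b k) (Finset.mem_univ j)]
      have := hpos i j
      field_simp
    rw [Finset.sum_congr rfl fun j _ => h1 j, ← Finset.mul_sum, h i, mul_zero]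
  have hdeg : p.natDegree < Fintype.card (Fin 4) := by
    rw [Fintype.card_fin, Nat.lt_succ_iff]
    refine natDegree_sum_le_of_forall_le _ _ fun j _ => ?_
    refine (natDegree_C_mul_le _ _).trans ((natDegree_prod_le _ _).trans ?_)
    refine (Finset.sum_le_card_nsmul _ _ 1 fun k _ => ?_).trans ?_
    · exact (natDegree_X_add_C (b k)).le
    · rw [Finset.card_erase_of_mem (Finset.mem_univ j)]
      simp
  have hp0 : p = 0 :=
    eq_zero_of_natDegree_lt_card_of_eval_eq_zero p ha hroot hdeg
  funext j
  have h2 := hev (-b j)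
  rw [hp0, eval_zero, Finset.sum_eq_single j] at h2
  · rcases mul_eq_zero.1 h2.symm with h3 | h3
    · exact h3
    · exfalso
      rw [Finset.prod_eq_zero_iff] at h3
      obtain ⟨k, hk, h4⟩ := h3
      have h5 : b k = b j := by linarith
      exact (Finset.mem_erase.1 hk).1 (hb h5)
  · intro k _ hkj
    rw [Finset.prod_eq_zero (Finset.mem_erase.2 ⟨hkj.symm, Finset.mem_univ j⟩), mul_zero]
    ring
  · intro h3
    exact absurd (Finset.mem_univ j) h3

theorem t_CAU : S_CAU := by
  intro x y hx hy hdet
  rw [← Matrix.exists_mulVec_eq_zero_iff] at hdet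
  obtain ⟨c, hc, h⟩ := hdet
  apply hc
  refine cau_aux (fun i => (x i : ℝ)) (fun j => (y j : ℝ) + 1) c ?_ ?_ ?_ ?_
  · intro i j hij
    have h1 : (x i : ℝ) = x j := hij
    exact hx (by exact_mod_cast h1)
  · intro i j hij
    have h1 : (y i : ℝ) + 1 = y j + 1 := hij
    have h2 : (y i : ℝ) = y j := by linarith
    exact hy (by exact_mod_cast h2)
  · intro i j
    positivity
  · intro i
    have h1 := congrFun h i
    rw [Matrix.mulVec, dotProduct] at h1
    simp only [Matrix.of_apply, Pi.zero_apply] at h1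
    rw [← h1]
    refine Finset.sum_congr rfl fun j _ => ?_
    rw [add_assoc]

end Pool.Agent.NPC.R537LR
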